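import Pool.Agent.Lib.MP_50bb2e_nt.MT.Iface

/-!
Module HEN: local squares at finite places.
-/

open NumberField IsDedekindDomain Filter Topology

namespace Pool.Agent.Lib.MP_50bb2e_nt.MT.H65

/-- HEN: `1 + 4 x` is a square in the completion when `v(x) < 1`. -/
theorem hen : HenS := by
  intro F _ _ v x hx
  have hxn : ‖x‖ < 1 := Valued.toNormedField.norm_lt_one_iff.2 hx
  have hna : ∀ a b : v.adicCompletion F, ‖a + b‖ ≤ max ‖a‖ ‖b‖ := fun a b =>
    Valued.isNonarchimedean_norm (v.adicCompletion F) _ a b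
  have hna' : ∀ a b : v.adicCompletion F, ‖a - b‖ ≤ max ‖a‖ ‖b‖ := fun a b => by
    rw [sub_eq_add_neg, ← norm_neg b]
    exact hna a (-b)
  let s : Set (v.adicCompletion F) := {y | ‖y‖ ≤ ‖x‖}
  let f : v.adicCompletion F → v.adicCompletion F := fun y => x - y ^ 2
  have hs : IsClosed s := isClosed_le continuous_norm continuous_const
  have hsc : IsComplete s := hs.isComplete
  have hmaps : Set.MapsTo f s s := by
    intro y hy
    have hy' : ‖y‖ ≤ ‖x‖ := hy
    refine (hna' x (y ^ 2)).trans (max_le le_rfl ?_)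
    rw [norm_pow]
    have h1 : ‖y‖ ^ 2 ≤ ‖x‖ ^ 2 := pow_le_pow_left₀ (norm_nonneg _) hy' 2
    have h2 : ‖x‖ ^ 2 ≤ ‖x‖ := by
      have := norm_nonneg x
      nlinarith
    exact h1.trans h2
  have hcon : ContractingWith ⟨‖x‖, norm_nonneg x⟩ (hmaps.restrict f s s) := by
    refine ⟨?_, LipschitzWith.of_dist_le_mul fun y z => ?_⟩
    · exact_mod_cast hxn
    · rw [Subtype.dist_eq, Subtype.dist_eq, dist_eq_norm, dist_eq_norm]
      change ‖(x - (y : v.adicCompletion F) ^ 2) - (x - (z : v.adicCompletion F) ^ 2)‖ ≤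
        ‖x‖ * ‖(y : v.adicCompletion F) - z‖
      have h3 : (x - (y : v.adicCompletion F) ^ 2) - (x - (z : v.adicCompletion F) ^ 2) =
          -((y + z) * (y - z)) := by ring
      rw [h3, norm_neg, norm_mul]
      exact mul_le_mul_of_nonneg_right ((hna _ _).trans (max_le y.2 z.2)) (norm_nonneg _)
  obtain ⟨y, _, hy, _⟩ := hcon.exists_fixedPoint' hsc hmaps (x := 0)
    (by simp [s]) (edist_ne_top _ _)
  have hy' : x - y ^ 2 = y := hy
  refine ⟨1 + 2 * y, ?_⟩
  rw [← sub_eq_zero]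
  have : x = y + y ^ 2 := by
    rw [← sub_eq_iff_eq_add]
    exact hy'
  rw [this]
  ring

end Pool.Agent.Lib.MP_50bb2e_nt.MT.H65
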