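import Pool.Agent.Lib.MP_50bb2e_nt.MT.Iface

/-!
Module LIN: local squares at infinite places.
-/

open NumberField IsDedekindDomain Filter Topology

namespace Pool.Agent.Lib.MP_50bb2e_nt.MT.H65

/-- Every element or its negative is a square in the completion at an infinite place. -/
theorem isSquare_or (F : Type) [Field F] [NumberField F] (w : InfinitePlace F)
    (a : w.Completion) : IsSquare a ∨ IsSquare (-a) := by
  rcases w.isReal_or_isComplex with h | h
  · let e := InfinitePlace.Completion.ringEquivRealOfIsReal h
    have key : ∀ b : w.Completion, 0 ≤ e b → IsSquare b := by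
      intro b hb
      have h1 : IsSquare (e b) := Real.isSquare_iff.2 hb
      have h2 := h1.map e.symm
      simpa using h2
    rcases le_total 0 (e a) with h0 | h0
    · exact Or.inl (key a h0)
    · refine Or.inr (key (-a) ?_)
      rw [map_neg]
      linarith
  · let e := InfinitePlace.Completion.ringEquivComplexOfIsComplex h
    left
    obtain ⟨z, hz⟩ := IsAlgClosed.exists_pow_nat_eq (e a) (n := 2) (by norm_num)
    refine ⟨e.symm z, ?_⟩
    rw [← map_mul, ← pow_two, hz]
    simp

/-- LIN: local triviality at an infinite place is a subgroup of finite index. -/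
theorem lin : LinS := by
  intro F _ _ w
  let φ : Fˣ →* (w.Completion)ˣ := Units.map (algebraMap F w.Completion).toMonoidHom
  let K : Subgroup Fˣ := ((powMonoidHom 2 : (w.Completion)ˣ →* (w.Completion)ˣ).range).comap φ
  have hK : ∀ d : Fˣ, d ∈ K ↔ IsSquare (algebraMap F w.Completion (d : F)) := by
    intro d
    constructor
    · rintro ⟨u, hu⟩
      refine ⟨(u : w.Completion), ?_⟩
      have := congrArg Units.val hu
      simp only [powMonoidHom_apply, Units.val_pow_eq_pow_val] at this
      rw [← pow_two, this]
      rfl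
    · rintro ⟨r, hr⟩
      have hr0 : r ≠ 0 := by
        rintro rfl
        rw [mul_zero] at hr
        exact d.ne_zero ((map_eq_zero (algebraMap F w.Completion)).1 hr)
      refine ⟨Units.mk0 r hr0, ?_⟩
      apply Units.ext
      simp only [powMonoidHom_apply, Units.val_pow_eq_pow_val, Units.val_mk0]
      rw [pow_two, ← hr]
      rfl
  let H : Subgroup (Quad F) := K.map (QuotientGroup.mk' _)
  have hH : ∀ q, q ∈ H ↔ TrivAt (Sum.inr w) q := by
    intro q
    constructor
    · rintro ⟨d, hd, rfl⟩
      exact ⟨d, rfl, (hK d).1 hd⟩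
    · rintro ⟨d, rfl, hd⟩
      exact ⟨d, (hK d).2 hd, rfl⟩
  refine ⟨H, ?_, hH⟩
  have hsurj : Function.Surjective
      (fun b : Bool => if b then (1 : Quad F ⧸ H) else QuotientGroup.mk (cls (-1 : Fˣ))) := by
    intro z
    obtain ⟨q, rfl⟩ := QuotientGroup.mk_surjective z
    obtain ⟨d, rfl⟩ := QuotientGroup.mk_surjective q
    rcases isSquare_or F w (algebraMap F w.Completion (d : F)) with h | h
    · refine ⟨true, ?_⟩
      simp only [if_true]
      exact ((QuotientGroup.eq_one_iff _).2 ((hH _).2 ⟨d, rfl, h⟩)).symm
    · refine ⟨false, ?_⟩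
      simp only [Bool.false_eq_true, if_false]
      rw [QuotientGroup.eq]
      rw [hH]
      refine ⟨(-1 : Fˣ)⁻¹ * d, rfl, ?_⟩
      have h1 : (((-1 : Fˣ)⁻¹ * d : Fˣ) : F) = -(d : F) := by simp
      rw [h1, map_neg]
      exact h
  have hfin : Finite (Quad F ⧸ H) := Finite.of_surjective _ hsurj
  exact Subgroup.finiteIndex_of_finite_quotient

end Pool.Agent.Lib.MP_50bb2e_nt.MT.H65
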